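import Pool.Agent.R280.FremlinTest

/-!
# MP_11a8c1_an, Q1 (Buskes' question)

The Fremlin tensor product of two projective Banach lattices with topological order units need not
be projective.
-/

set_option autoImplicit false

namespace Pool.Agent.Results.MP_11a8c1_an.FremlinNotProjective

open Pool.Agent.R280.BLat

/-- There are projective Banach lattices `X`, `Y`, each with a topological order unit, whose Fremlin
tensor product (it exists, and it is characterised up to an isometric lattice isomorphism by the
property `IsFremlin`) is not projective. -/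
theorem result :
    ∃ (X Y : Type) (_ : NormedAddCommGroup X) (_ : NormedSpace ℝ X) (_ : Lattice X)
      (_ : BanachLattice X) (_ : NormedAddCommGroup Y) (_ : NormedSpace ℝ Y) (_ : Lattice Y)
      (_ : BanachLattice Y),
      IsProjective.{0, 0} X ∧ IsProjective.{0, 0} Y ∧
      (∃ e : X, IsTopUnit e) ∧ (∃ e : Y, IsTopUnit e) ∧
      (∃ (F : Type) (_ : NormedAddCommGroup F) (_ : NormedSpace ℝ F) (_ : Lattice F)
        (_ : BanachLattice F) (τ : X →L[ℝ] Y →L[ℝ] F), IsFremlin τ) ∧
      ∀ (F : Type) [NormedAddCommGroup F] [NormedSpace ℝ F] [Lattice F] [BanachLattice F]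
        (τ : X →L[ℝ] Y →L[ℝ] F), IsFremlin τ → ¬ IsProjective.{0, 0} F := by
  refine ⟨PA FT.DD, PA ℕ, inferInstance, inferInstance, inferInstance, inferInstance,
    inferInstance, inferInstance, inferInstance, inferInstance, PA_isProjective, PA_isProjective,
    ⟨_, PA_isTopUnit⟩, ⟨_, PA_isTopUnit⟩,
    ⟨FAB FT.DD ℕ, inferInstance, inferInstance, inferInstance, inferInstance, fTau FT.DD ℕ,
      fTau_isFremlin FT.DD ℕ⟩, ?_⟩
  intro F _ _ _ _ τ hτ hF
  exact FT.FAB_not_projective ((fTau_isFremlin FT.DD ℕ).isProjective hτ hF)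

end Pool.Agent.Results.MP_11a8c1_an.FremlinNotProjective
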